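import Pool.Agent.H315_Pol.Tables

/-!
# The poset, its flags and its dualities
-/

set_option autoImplicit false

namespace Pool.Agent.H315_Pol

/-- The faces of the polyhedron. -/
inductive Elt : Type
  | bot : Elt
  | vert (v : Fin 8) : Elt
  | edge (e : Fin 24) : Elt
  | face (f : Fin 8) : Elt
  | top : Elt
  deriving DecidableEq

open Elt

/-- The order as a boolean function. -/
def leb : Elt → Elt → Bool
  | bot, _ => true
  | vert _, bot => false
  | vert v, vert w => decide (v = w)
  | vert v, edge e => ive v e
  | vert v, face f => ivf v f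
  | vert _, top => true
  | edge _, bot => false
  | edge _, vert _ => false
  | edge e, edge e' => decide (e = e')
  | edge e, face f => ief e f
  | edge _, top => true
  | face _, bot => false
  | face _, vert _ => false
  | face _, edge _ => false
  | face f, face g => decide (f = g)
  | face _, top => true
  | top, bot => false
  | top, vert _ => false
  | top, edge _ => false
  | top, face _ => false
  | top, top => true

theorem ivf_of {v : Fin 8} {e : Fin 24} {f : Fin 8} (h1 : ive v e = true) (h2 : ief e f = true) :
    ivf v f = true := by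
  obtain ⟨x, hx1, _, hx3⟩ := trans_ok v e f h1 h2
  exact (ivf_iff v f).2 ⟨x, hx1, hx3⟩

instance instPO : PartialOrder Elt where
  le a b := leb a b = true
  le_refl a := by cases a <;> simp [leb]
  le_trans a b c := by
    cases a <;> cases b <;> cases c <;> simp only [leb, decide_eq_true_eq, Bool.false_eq_true,
      implies_true, IsEmpty.forall_iff] <;> first
      | exact fun h1 h2 => ivf_of h1 h2
      | exact fun h1 h2 => h1.trans h2
      | (intro h1 h2; subst h1; exact h2)
      | (intro h1 h2; subst h2; exact h1)
  le_antisymm a b := by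
    cases a <;> cases b <;> simp only [leb, decide_eq_true_eq, Bool.false_eq_true,
      implies_true, IsEmpty.forall_iff] <;> first
      | (intro h1 h2; subst h1; rfl)

/-- The rank function. -/
def rk : Elt → ℤ
  | bot => -1
  | vert _ => 0
  | edge _ => 1
  | face _ => 2
  | top => 3

theorem le_def (a b : Elt) : a ≤ b ↔ leb a b = true := Iff.rfl

theorem rk_mono : StrictMono rk := by
  intro a b h
  have h1 : a ≤ b := h.le
  have h2 : a ≠ b := h.ne
  rw [le_def] at h1
  cases a <;> cases b <;> simp_all [leb, rk]

theorem bot_le' (a : Elt) : bot ≤ a := by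
  rw [le_def]; cases a <;> rfl

theorem le_top' (a : Elt) : a ≤ top := by
  rw [le_def]; cases a <;> rfl

theorem ve (x : Fin 96) : vert (V x) ≤ edge (E x) := (ive_iff _ _).2 ⟨x, rfl, rfl⟩

theorem ef (x : Fin 96) : edge (E x) ≤ face (F x) := (ief_iff _ _).2 ⟨x, rfl, rfl⟩

theorem vf (x : Fin 96) : vert (V x) ≤ face (F x) := (ve x).trans (ef x)

/-- The set of faces of the flag `x`. -/
def car (x : Fin 96) : Set Elt := {bot, vert (V x), edge (E x), face (F x), top}

theorem mem_car (x : Fin 96) (a : Elt) :
    a ∈ car x ↔ a = bot ∨ a = vert (V x) ∨ a = edge (E x) ∨ a = face (F x) ∨ a = top := Iff.rfl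

theorem car_chain (x : Fin 96) : IsChain (· ≤ ·) (car x) := by
  have h1 := ve x
  have h2 := ef x
  have h3 := vf x
  intro a ha b hb _
  rw [mem_car] at ha hb
  rcases ha with rfl | rfl | rfl | rfl | rfl <;> rcases hb with rfl | rfl | rfl | rfl | rfl <;>
    simp only [le_refl, or_self, bot_le', le_top', true_or, or_true, h1, h2, h3]

theorem vv {v w : Fin 8} (h : vert v ≤ vert w) : v = w := of_decide_eq_true h

theorem ee {v w : Fin 24} (h : edge v ≤ edge w) : v = w := of_decide_eq_true h

theorem ff {v w : Fin 8} (h : face v ≤ face w) : v = w := of_decide_eq_true h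

theorem tot_v {s : Set Elt} (hs : IsChain (· ≤ ·) s) {v w : Fin 8} (h1 : vert v ∈ s)
    (h2 : vert w ∈ s) : v = w := by
  rcases hs.total h1 h2 with h | h
  · exact vv h
  · exact (vv h).symm

theorem tot_e {s : Set Elt} (hs : IsChain (· ≤ ·) s) {v w : Fin 24} (h1 : edge v ∈ s)
    (h2 : edge w ∈ s) : v = w := by
  rcases hs.total h1 h2 with h | h
  · exact ee h
  · exact (ee h).symm

theorem tot_f {s : Set Elt} (hs : IsChain (· ≤ ·) s) {v w : Fin 8} (h1 : face v ∈ s)
    (h2 : face w ∈ s) : v = w := by
  rcases hs.total h1 h2 with h | h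
  · exact ff h
  · exact (ff h).symm

theorem tot_ve {s : Set Elt} (hs : IsChain (· ≤ ·) s) {v : Fin 8} {e : Fin 24} (h1 : vert v ∈ s)
    (h2 : edge e ∈ s) : vert v ≤ edge e := by
  rcases hs.total h1 h2 with h | h
  · exact h
  · exact absurd h (by rw [le_def]; simp [leb])

theorem tot_vf {s : Set Elt} (hs : IsChain (· ≤ ·) s) {v : Fin 8} {e : Fin 8} (h1 : vert v ∈ s)
    (h2 : face e ∈ s) : vert v ≤ face e := by
  rcases hs.total h1 h2 with h | h
  · exact h
  · exact absurd h (by rw [le_def]; simp [leb])

theorem tot_ef {s : Set Elt} (hs : IsChain (· ≤ ·) s) {v : Fin 24} {e : Fin 8} (h1 : edge v ∈ s)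
    (h2 : face e ∈ s) : edge v ≤ face e := by
  rcases hs.total h1 h2 with h | h
  · exact h
  · exact absurd h (by rw [le_def]; simp [leb])

theorem car_max (x : Fin 96) {s : Set Elt} (hs : IsChain (· ≤ ·) s) (h : car x ⊆ s) :
    car x = s := by
  apply Set.Subset.antisymm h
  intro z hz
  have hv : vert (V x) ∈ s := h (by rw [mem_car]; simp)
  have he : edge (E x) ∈ s := h (by rw [mem_car]; simp)
  have hf : face (F x) ∈ s := h (by rw [mem_car]; simp)
  rw [mem_car]
  cases z with
  | bot => simp
  | top => simp
  | vert v => rw [tot_v hs hz hv]; simp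
  | edge v => rw [tot_e hs hz he]; simp
  | face v => rw [tot_f hs hz hf]; simp

/-- The flag of index `x`. -/
def mk (x : Fin 96) : Flag Elt where
  carrier := car x
  Chain' := car_chain x
  max_chain' := fun _ hs h => car_max x hs h

theorem coe_mk (x : Fin 96) : (mk x : Set Elt) = car x := rfl

theorem flag_add (Φ : Flag Elt) (a : Elt) (h : ∀ b ∈ Φ, a ≤ b ∨ b ≤ a) : a ∈ Φ :=
  Flag.mem_iff_forall_le_or_ge.2 fun _ hb => h _ hb

theorem flag_mk (Φ : Flag Elt) : ∃ x : Fin 96, Φ = mk x := by
  have hc : IsChain (· ≤ ·) (Φ : Set Elt) := Φ.chain_le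
  -- an edge
  have he : ∃ e, edge e ∈ Φ := by
    by_contra hno
    push Not at hno
    by_cases hv : ∃ v, vert v ∈ Φ
    · obtain ⟨v, hv⟩ := hv
      by_cases hf : ∃ f, face f ∈ Φ
      · obtain ⟨f, hf⟩ := hf
        obtain ⟨x, hx1, hx2⟩ := (ivf_iff v f).1 (tot_vf hc hv hf)
        apply hno (E x)
        apply flag_add
        intro b hb
        cases b with
        | bot => exact Or.inr (bot_le' _)
        | top => exact Or.inl (le_top' _)
        | vert w => rw [tot_v hc hb hv, ← hx1]; exact Or.inr (ve x)
        | edge w => exact absurd hb (hno w)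
        | face w => rw [tot_f hc hb hf, ← hx2]; exact Or.inl (ef x)
      · push Not at hf
        obtain ⟨x, hx⟩ := surj_ok.1 v
        apply hno (E x)
        apply flag_add
        intro b hb
        cases b with
        | bot => exact Or.inr (bot_le' _)
        | top => exact Or.inl (le_top' _)
        | vert w => rw [tot_v hc hb hv, ← hx]; exact Or.inr (ve x)
        | edge w => exact absurd hb (hno w)
        | face w => exact absurd hb (hf w)
    · push Not at hv
      by_cases hf : ∃ f, face f ∈ Φ
      · obtain ⟨f, hf⟩ := hf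
        obtain ⟨x, hx⟩ := surj_ok.2.2 f
        apply hno (E x)
        apply flag_add
        intro b hb
        cases b with
        | bot => exact Or.inr (bot_le' _)
        | top => exact Or.inl (le_top' _)
        | vert w => exact absurd hb (hv w)
        | edge w => exact absurd hb (hno w)
        | face w => rw [tot_f hc hb hf, ← hx]; exact Or.inl (ef x)
      · push Not at hf
        apply hno 0
        apply flag_add
        intro b hb
        cases b with
        | bot => exact Or.inr (bot_le' _)
        | top => exact Or.inl (le_top' _)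
        | vert w => exact absurd hb (hv w)
        | edge w => exact absurd hb (hno w)
        | face w => exact absurd hb (hf w)
  obtain ⟨e, he⟩ := he
  have hv : ∃ v, vert v ∈ Φ := by
    by_contra hno
    push Not at hno
    obtain ⟨x, hx⟩ := surj_ok.2.1 e
    apply hno (V x)
    apply flag_add
    intro b hb
    cases b with
    | bot => exact Or.inr (bot_le' _)
    | top => exact Or.inl (le_top' _)
    | vert w => exact absurd hb (hno w)
    | edge w => rw [tot_e hc hb he, ← hx]; exact Or.inl (ve x)
    | face w =>
      have h1 := tot_ef hc he hb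
      left
      refine (ve x).trans ?_
      rw [hx]
      exact h1
  obtain ⟨v, hv⟩ := hv
  have hf : ∃ f, face f ∈ Φ := by
    by_contra hno
    push Not at hno
    obtain ⟨x, hx⟩ := surj_ok.2.1 e
    apply hno (F x)
    apply flag_add
    intro b hb
    cases b with
    | bot => exact Or.inr (bot_le' _)
    | top => exact Or.inl (le_top' _)
    | vert w =>
      have h1 := tot_ve hc hb he
      right
      refine h1.trans ?_
      rw [← hx]
      exact ef x
    | edge w => rw [tot_e hc hb he, ← hx]; exact Or.inr (ef x)
    | face w => exact absurd hb (hno w)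
  obtain ⟨f, hf⟩ := hf
  obtain ⟨x, hx1, hx2, hx3⟩ := trans_ok v e f (tot_ve hc hv he) (tot_ef hc he hf)
  refine ⟨x, ?_⟩
  apply SetLike.coe_injective
  rw [coe_mk]
  symm
  apply car_max x hc
  intro z hz
  rw [mem_car, hx1, hx2, hx3] at hz
  rcases hz with rfl | rfl | rfl | rfl | rfl
  · exact flag_add Φ _ fun b _ => Or.inl (bot_le' b)
  · exact hv
  · exact he
  · exact hf
  · exact flag_add Φ _ fun b _ => Or.inr (le_top' b)

theorem car_ncard (x : Fin 96) : (car x).ncard = 5 := by
  have : car x = (({bot, vert (V x), edge (E x), face (F x), top} : Finset Elt) : Set Elt) := by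
    simp [car]
  rw [this, Set.ncard_coe_finset]
  simp

theorem inter_sub {x y z : Fin 96} (hV : V x = V y → V z = V x) (hE : E x = E y → E z = E x)
    (hF : F x = F y → F z = F x) : (car x ∩ car y) ⊆ car z := by
  rintro a ⟨ha, hb⟩
  rw [mem_car] at ha hb ⊢
  rcases ha with rfl | rfl | rfl | rfl | rfl
  · simp
  · right; left
    have : V x = V y := by simpa using hb
    rw [hV this]
  · right; right; left
    have : E x = E y := by simpa using hb
    rw [hE this]
  · right; right; right; left
    have : F x = F y := by simpa using hb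
    rw [hF this]
  · simp

theorem diff0 {x y : Fin 96} (hV : V x ≠ V y) (hE : E x = E y) (hF : F x = F y) :
    car x \ car y = {vert (V x)} := by
  ext a
  simp only [Set.mem_sdiff, mem_car, Set.mem_singleton_iff]
  constructor
  · rintro ⟨rfl | rfl | rfl | rfl | rfl, h2⟩ <;> simp_all
  · rintro rfl
    simp [hV]

theorem diff1 {x y : Fin 96} (hV : V x = V y) (hE : E x ≠ E y) (hF : F x = F y) :
    car x \ car y = {edge (E x)} := by
  ext a
  simp only [Set.mem_sdiff, mem_car, Set.mem_singleton_iff]
  constructor
  · rintro ⟨rfl | rfl | rfl | rfl | rfl, h2⟩ <;> simp_all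
  · rintro rfl
    simp [hE]

theorem diff2 {x y : Fin 96} (hV : V x = V y) (hE : E x = E y) (hF : F x ≠ F y) :
    car x \ car y = {face (F x)} := by
  ext a
  simp only [Set.mem_sdiff, mem_car, Set.mem_singleton_iff]
  constructor
  · rintro ⟨rfl | rfl | rfl | rfl | rfl, h2⟩ <;> simp_all
  · rintro rfl
    simp [hF]

/-- Adjacency of indices. -/
def Ad (x y : Fin 96) : Prop := (car x \ car y).ncard = 1 ∧ (car y \ car x).ncard = 1

theorem ad_r (x y : Fin 96) (h : y = r0 x ∨ y = r1 x ∨ y = r2 x) : Ad x y := by
  obtain ⟨⟨a1, a2, a3⟩, ⟨b1, b2, b3⟩, ⟨c1, c2, c3⟩⟩ := r_ok x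
  rcases h with rfl | rfl | rfl
  · refine ⟨?_, ?_⟩
    · rw [diff0 a3.symm a1.symm a2.symm, Set.ncard_singleton]
    · rw [diff0 a3 a1 a2, Set.ncard_singleton]
  · refine ⟨?_, ?_⟩
    · rw [diff1 b1.symm b3.symm b2.symm, Set.ncard_singleton]
    · rw [diff1 b1 b3 b2, Set.ncard_singleton]
  · refine ⟨?_, ?_⟩
    · rw [diff2 c1.symm c2.symm c3.symm, Set.ncard_singleton]
    · rw [diff2 c1 c2 c3, Set.ncard_singleton]

/-- A step inside the set `Q` of flags. -/
def St (Q : Fin 96 → Prop) (a b : Fin 96) : Prop :=
  Q a ∧ Q b ∧ (b = r0 a ∨ b = r1 a ∨ b = r2 a)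

theorem st_v (x : Fin 96) (k : ℕ) : V (rot k x) = V x ∧
    Relation.ReflTransGen (St fun z => V z = V x) x (rot k x) := by
  induction k with
  | zero => exact ⟨rfl, Relation.ReflTransGen.refl⟩
  | succ k ih =>
    have e : rot (k + 1) x = r1 (r2 (rot k x)) := Function.iterate_succ_apply' _ _ _
    rw [e]
    set y := rot k x
    obtain ⟨ih1, ih2⟩ := ih
    have h2 : V (r2 y) = V x := ((r_ok y).2.2.1).trans ih1
    have h1 : V (r1 (r2 y)) = V x := ((r_ok (r2 y)).2.1.1).trans h2
    refine ⟨h1, ?_⟩
    refine Relation.ReflTransGen.tail (Relation.ReflTransGen.tail ih2 (b := y) (c := r2 y) ?_) ?_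
    · exact ⟨ih1, h2, by simp⟩
    · exact ⟨h2, h1, by simp⟩

theorem st_f (x : Fin 96) (k : ℕ) : F (rot' k x) = F x ∧
    Relation.ReflTransGen (St fun z => F z = F x) x (rot' k x) := by
  induction k with
  | zero => exact ⟨rfl, Relation.ReflTransGen.refl⟩
  | succ k ih =>
    have e : rot' (k + 1) x = r1 (r0 (rot' k x)) := Function.iterate_succ_apply' _ _ _
    rw [e]
    set y := rot' k x
    obtain ⟨ih1, ih2⟩ := ih
    have h2 : F (r0 y) = F x := ((r_ok y).1.2.1).trans ih1
    have h1 : F (r1 (r0 y)) = F x := ((r_ok (r0 y)).2.1.2.1).trans h2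
    refine ⟨h1, ?_⟩
    refine Relation.ReflTransGen.tail (Relation.ReflTransGen.tail ih2 (b := y) (c := r0 y) ?_) ?_
    · exact ⟨ih1, h2, by simp⟩
    · exact ⟨h2, h1, by simp⟩

theorem st_all (n : ℕ) : ∀ x : Fin 96, ds x ≤ n →
    Relation.ReflTransGen (St fun _ => True) x 0 := by
  induction n with
  | zero =>
    intro x hx
    rcases ds_ok x with h | h | h | h
    · rw [h]
    all_goals omega
  | succ n ih =>
    intro x hx
    rcases ds_ok x with h | h | h | h
    · rw [h]
    · exact Relation.ReflTransGen.head (b := r0 x) ⟨trivial, trivial, by simp⟩ (ih _ (by omega))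
    · exact Relation.ReflTransGen.head (b := r1 x) ⟨trivial, trivial, by simp⟩ (ih _ (by omega))
    · exact Relation.ReflTransGen.head (b := r2 x) ⟨trivial, trivial, by simp⟩ (ih _ (by omega))

theorem st_symm (Q : Fin 96 → Prop) {a b : Fin 96} (h : St Q a b) : St Q b a := by
  obtain ⟨h1, h2, h3⟩ := h
  refine ⟨h2, h1, ?_⟩
  obtain ⟨e0, e1, e2⟩ := rr_ok a
  rcases h3 with rfl | rfl | rfl
  · left; exact e0.symm
  · right; left; exact e1.symm
  · right; right; exact e2.symm

theorem st_rev (Q : Fin 96 → Prop) {a b : Fin 96} (h : Relation.ReflTransGen (St Q) a b) :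
    Relation.ReflTransGen (St Q) b a := by
  induction h with
  | refl => exact Relation.ReflTransGen.refl
  | tail _ h2 ih => exact Relation.ReflTransGen.head (st_symm Q h2) ih

theorem st_conn (x y : Fin 96) : Relation.ReflTransGen (St fun _ => True) x y :=
  (st_all _ x le_rfl).trans (st_rev _ (st_all _ y le_rfl))

theorem conn (x y : Fin 96) :
    Relation.ReflTransGen (fun a b => Ad a b ∧ car x ∩ car y ⊆ car a ∧ car x ∩ car y ⊆ car b)
      x y := by
  have key : ∀ Q : Fin 96 → Prop, (∀ z, Q z → car x ∩ car y ⊆ car z) →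
      Relation.ReflTransGen (St Q) x y →
      Relation.ReflTransGen (fun a b => Ad a b ∧ car x ∩ car y ⊆ car a ∧ car x ∩ car y ⊆ car b)
      x y := by
    intro Q hQ
    generalize car x ∩ car y = I at hQ ⊢
    intro h
    induction h with
    | refl => exact Relation.ReflTransGen.refl
    | tail _ hab ih => exact ih.tail ⟨ad_r _ _ hab.2.2, hQ _ hab.1, hQ _ hab.2.1⟩
  have hx : car x ∩ car y ⊆ car x := Set.inter_subset_left
  have hy : car x ∩ car y ⊆ car y := Set.inter_subset_right
  by_cases hV : V x = V y
  · by_cases hE : E x = E y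
    · rcases (uniq x y).1 hV hE with h | h
      · rw [h]
      · exact Relation.ReflTransGen.single ⟨ad_r x y (by simp [h]), hx, hy⟩
    · by_cases hF : F x = F y
      · rcases (uniq x y).2.1 hV hF with h | h
        · rw [h]
        · exact Relation.ReflTransGen.single ⟨ad_r x y (by simp [h]), hx, hy⟩
      · apply key (fun z => V z = V x)
        · intro z hz
          exact inter_sub (fun _ => hz) (fun h => absurd h hE) (fun h => absurd h hF)
        · obtain ⟨k, hk⟩ := rot_ok x y hV
          obtain ⟨s1, s2⟩ := st_v x k.val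
          rcases hk with h | h
          · rw [h]; exact s2
          · refine s2.tail ⟨s1, ?_, by simp [h]⟩
            change V y = V x
            rw [h, (r_ok _).2.2.1, s1]
  · by_cases hE : E x = E y
    · by_cases hF : F x = F y
      · rcases (uniq x y).2.2 hE hF with h | h
        · rw [h]
        · exact Relation.ReflTransGen.single ⟨ad_r x y (by simp [h]), hx, hy⟩
      · apply key (fun z => E z = E x)
        · intro z hz
          exact inter_sub (fun h => absurd h hV) (fun _ => hz) (fun h => absurd h hF)
        · have hr0 : ∀ z, E (r0 z) = E z := fun z => (r_ok z).1.1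
          have hr2 : ∀ z, E (r2 z) = E z := fun z => (r_ok z).2.2.2.1
          rcases edge_ok x y hE with h | h | h | h
          · rw [h]
          · exact Relation.ReflTransGen.single ⟨rfl, hE.symm, by simp [h]⟩
          · exact Relation.ReflTransGen.single ⟨rfl, hE.symm, by simp [h]⟩
          · refine Relation.ReflTransGen.head (b := r2 x) ⟨rfl, hr2 x, by simp⟩ ?_
            exact Relation.ReflTransGen.single ⟨hr2 x, hE.symm, by simp [h]⟩
    · by_cases hF : F x = F y
      · apply key (fun z => F z = F x)
        · intro z hz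
          exact inter_sub (fun h => absurd h hV) (fun h => absurd h hE) (fun _ => hz)
        · obtain ⟨k, hk⟩ := rot'_ok x y hF
          obtain ⟨s1, s2⟩ := st_f x k.val
          rcases hk with h | h
          · rw [h]; exact s2
          · refine s2.tail ⟨s1, ?_, by simp [h]⟩
            change F y = F x
            rw [h, (r_ok _).1.2.1, s1]
      · apply key (fun _ => True)
        · intro z _
          exact inter_sub (fun h => absurd h hV) (fun h => absurd h hE) (fun h => absurd h hF)
        · exact st_conn x y

/-- The duality. -/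
def dl : Elt → Elt
  | bot => top
  | vert v => face v
  | edge e => edge (de e)
  | face f => vert (df f)
  | top => bot

/-- The inverse duality. -/
def dl' : Elt → Elt
  | bot => top
  | vert v => face (df v)
  | edge e => edge (de' e)
  | face f => vert f
  | top => bot

/-- The duality as a permutation. -/
def dlE : Elt ≃ Elt where
  toFun := dl
  invFun := dl'
  left_inv := by
    intro a
    cases a with
    | bot => rfl
    | vert v => rfl
    | edge e => simp only [dl, dl', (dual_ok.1 e).2]
    | face f => simp only [dl, dl', dual_ok.2.1 f]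
    | top => rfl
  right_inv := by
    intro a
    cases a with
    | bot => rfl
    | vert v => simp only [dl, dl', dual_ok.2.1 v]
    | edge e => simp only [dl, dl', (dual_ok.1 e).1]
    | face f => rfl
    | top => rfl

theorem dl_dual (a b : Elt) : a ≤ b ↔ dlE b ≤ dlE a := by
  have hde : Function.Injective de := by
    intro a b h
    have := congrArg de' h
    rwa [(dual_ok.1 a).2, (dual_ok.1 b).2] at this
  have hdf : Function.Injective df := by
    intro a b h
    have := congrArg df h
    rwa [dual_ok.2.1 a, dual_ok.2.1 b] at this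
  change leb a b = true ↔ leb (dl b) (dl a) = true
  cases a <;> cases b <;> simp only [leb, dl, decide_eq_true_eq, Bool.false_eq_true]
  · exact eq_comm
  · rw [dual_ok.2.2.1]
  · rw [dual_ok.2.2.2.2]
  · rw [eq_comm, hde.eq_iff]
  · rw [dual_ok.2.2.2.1]
  · rw [eq_comm, hdf.eq_iff]

theorem rk_bd (a : Elt) : -1 ≤ rk a ∧ rk a ≤ 3 := by
  cases a <;> simp [rk]

theorem lt_of_rk {a b : Elt} (h : a ≤ b) (h' : rk a ≠ rk b) : a < b :=
  lt_of_le_of_ne h fun hab => h' (by rw [hab])

theorem inj {x y : Fin 96} (hV : V x = V y) (hE : E x = E y) (hF : F x = F y) : y = x := by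
  rcases (uniq x y).1 hV hE with h | h
  · exact h
  · exact absurd (by rw [hF, h]) (r_ok x).2.2.2.2

/-- No duality is an involution. -/
theorem no_pol (δ : Elt ≃ Elt) (hδ : ∀ a b, a ≤ b ↔ δ b ≤ δ a) (h2 : ∀ a, δ (δ a) = a) :
    False := by
  have hlt : ∀ a b, a < b → δ b < δ a := by
    intro a b hab
    refine lt_of_le_of_ne ((hδ a b).1 hab.le) ?_
    intro h
    exact hab.ne (δ.injective h).symm
  have hall : ∀ x : Fin 96, rk (δ (vert (V x))) = 2 ∧ rk (δ (edge (E x))) = 1 ∧
      rk (δ (face (F x))) = 0 := by
    intro x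
    have c1 := rk_mono (hlt _ _ (lt_of_rk (bot_le' (vert (V x))) (by simp [rk])))
    have c2 := rk_mono (hlt _ _ (lt_of_rk (ve x) (by simp [rk])))
    have c3 := rk_mono (hlt _ _ (lt_of_rk (ef x) (by simp [rk])))
    have c4 := rk_mono (hlt _ _ (lt_of_rk (le_top' (face (F x))) (by simp [rk])))
    have d1 := rk_bd (δ bot)
    have d2 := rk_bd (δ top)
    omega
  have hα : ∀ v, ∃ f, δ (vert v) = face f := by
    intro v
    obtain ⟨x, rfl⟩ := surj_ok.1 v
    have := (hall x).1
    revert this
    cases δ (vert (V x)) <;> simp [rk]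
  have hβ : ∀ e, ∃ f, δ (edge e) = edge f := by
    intro v
    obtain ⟨x, rfl⟩ := surj_ok.2.1 v
    have := (hall x).2.1
    revert this
    cases δ (edge (E x)) <;> simp [rk]
  have hγ : ∀ v, ∃ f, δ (face v) = vert f := by
    intro v
    obtain ⟨x, rfl⟩ := surj_ok.2.2 v
    have := (hall x).2.2
    revert this
    cases δ (face (F x)) <;> simp [rk]
  choose α hα using hα
  choose β hβ using hβ
  choose γ hγ using hγ
  have hD : ∀ x : Fin 96, ∃ y : Fin 96, V y = γ (F x) ∧ E y = β (E x) ∧ F y = α (V x) := by
    intro x
    apply trans_ok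
    · have := (hδ _ _).1 (ef x)
      rw [hβ, hγ] at this
      exact this
    · have := (hδ _ _).1 (ve x)
      rw [hβ, hα] at this
      exact this
  choose D hDV hDE hDF using hD
  have hαi : Function.Injective α := by
    intro a b h
    have : δ (vert a) = δ (vert b) := by rw [hα, hα, h]
    simpa using δ.injective this
  have hβi : Function.Injective β := by
    intro a b h
    have : δ (edge a) = δ (edge b) := by rw [hβ, hβ, h]
    simpa using δ.injective this
  have hγi : Function.Injective γ := by
    intro a b h
    have : δ (face a) = δ (face b) := by rw [hγ, hγ, h]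
    simpa using δ.injective this
  have hr : ∀ i : Fin 3, ∀ x : Fin 96, D (r i x) = r (2 - i) (D x) := by
    intro i x
    obtain ⟨⟨a1, a2, a3⟩, ⟨b1, b2, b3⟩, ⟨c1, c2, c3⟩⟩ := r_ok x
    fin_cases i
    · change D (r0 x) = r2 (D x)
      rcases (uniq (D x) (D (r0 x))).1 (by rw [hDV, hDV, a2]) (by rw [hDE, hDE, a1]) with h | h
      · have := congrArg F h
        rw [hDF, hDF] at this
        exact absurd (hαi this) a3
      · exact h
    · change D (r1 x) = r1 (D x)
      rcases (uniq (D x) (D (r1 x))).2.1 (by rw [hDV, hDV, b2]) (by rw [hDF, hDF, b1]) with h | h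
      · have := congrArg E h
        rw [hDE, hDE] at this
        exact absurd (hβi this) b3
      · exact h
    · change D (r2 x) = r0 (D x)
      rcases (uniq (D x) (D (r2 x))).2.2 (by rw [hDE, hDE, c2]) (by rw [hDF, hDF, c1]) with h | h
      · have := congrArg V h
        rw [hDV, hDV] at this
        exact absurd (hγi this) c3
      · exact h
  have happ : ∀ w : List (Fin 3), ∀ x : Fin 96, D (app w x) = app' w (D x) := by
    intro w
    induction w with
    | nil => intro x; rfl
    | cons i w ih =>
      intro x
      change D (app w (r i x)) = app' w (r (2 - i) (D x))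
      rw [ih, hr]
  have hαγ : ∀ f, α (γ f) = f := by
    intro f
    have := h2 (face f)
    rw [hγ, hα] at this
    simpa using this
  have hγα : ∀ f, γ (α f) = f := by
    intro f
    have := h2 (vert f)
    rw [hα, hγ] at this
    simpa using this
  have hββ : ∀ f, β (β f) = f := by
    intro f
    have := h2 (edge f)
    rw [hβ, hβ] at this
    simpa using this
  have hDD : ∀ x, D (D x) = x := by
    intro x
    symm
    apply inj
    · rw [hDV, hDF, hγα]
    · rw [hDE, hDE, hββ]
    · rw [hDF, hDV, hαγ]
  rcases words_ok (D 80) with ⟨h, h'⟩ | ⟨h, h'⟩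
  · have := happ (word (D 80)) 80
    rw [h] at this
    exact h' this.symm
  · have := happ (word (D 80)) 80
    rw [h, hDD] at this
    exact h' this.symm

end Pool.Agent.H315_Pol
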