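import Mathlib

/-!
# A self-dual polyhedron of type `(6, 6)` with 96 flags and no polarity: the tables

The flags are numbered `0, ..., 95`; `V x`, `E x`, `F x` are the vertex, the edge and the 2-face of the
flag `x`, and `r i x` is the flag that differs from `x` exactly in the face of rank `i`.
-/

set_option autoImplicit false

namespace Pool.Agent.H315_Pol

/-- The vertex of a flag. -/
def V (x : Fin 96) : Fin 8 :=
  ⟨18064480862225252311992542832283927857827185 / 8 ^ (x.val / 2) % 8, Nat.mod_lt _ (by decide)⟩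

/-- The edge of a flag. -/
def E (x : Fin 96) : Fin 24 := ⟨x.val / 4, by omega⟩

/-- The 2-face of a flag. -/
def F (x : Fin 96) : Fin 8 :=
  ⟨18788759423532540630210065234481598437743740 / 8 ^ (2 * (x.val / 4) + x.val % 2) % 8,
    Nat.mod_lt _ (by decide)⟩

/-- The flag adjacent to `x` that differs at rank `0`. -/
def r0 (x : Fin 96) : Fin 96 := ⟨(x.val ^^^ 2) % 96, Nat.mod_lt _ (by decide)⟩

/-- The flag adjacent to `x` that differs at rank `1`. -/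
def r1 (x : Fin 96) : Fin 96 :=
  ⟨1157231529095458741640613907138593965510777418350551166728960900614186045124750689009430326488022910887767636614604999739592857662659938191357742838300886920659350390263090282872785321813053743663926451 / 128 ^ x.val % 128 % 96,
    Nat.mod_lt _ (by decide)⟩

/-- The flag adjacent to `x` that differs at rank `2`. -/
def r2 (x : Fin 96) : Fin 96 := ⟨(x.val ^^^ 1) % 96, Nat.mod_lt _ (by decide)⟩

/-- Incidence of vertices and edges. -/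
def ive (v : Fin 8) (e : Fin 24) : Bool :=
  (18064480862225252311992542832283927857827185 / 8 ^ (2 * e.val) % 8 == v.val) ||
  (18064480862225252311992542832283927857827185 / 8 ^ (2 * e.val + 1) % 8 == v.val)

/-- Incidence of edges and 2-faces. -/
def ief (e : Fin 24) (f : Fin 8) : Bool :=
  (18788759423532540630210065234481598437743740 / 8 ^ (2 * e.val) % 8 == f.val) ||
  (18788759423532540630210065234481598437743740 / 8 ^ (2 * e.val + 1) % 8 == f.val)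

/-- Incidence of vertices and 2-faces. -/
def ivf (v : Fin 8) (f : Fin 8) : Bool :=
  18011812249789709175 / 2 ^ (8 * v.val + f.val) % 2 == 1

/-- Distance to the flag `0` in the flag graph. -/
def ds (x : Fin 96) : ℕ :=
  15925420919574576558662803349856629678460423278209837823645152613738895344673488785808159086709021362355111542989072 / 16 ^ x.val % 16

/-- The vertices of the 2-face `f` in cyclic order. -/
def fv (f : Fin 8) (i : Fin 6) : Fin 8 :=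
  ⟨13708029988406645390688445561531654523329276 / 8 ^ (6 * f.val + i.val) % 8, Nat.mod_lt _ (by decide)⟩

/-- The edges of the 2-face `f` in cyclic order. -/
def fe (f : Fin 8) (i : Fin 6) : Fin 24 :=
  ⟨337620570757871475399290493733592296374372924677920388374667475452079267 / 32 ^ (6 * f.val + i.val) % 32 % 24,
    Nat.mod_lt _ (by decide)⟩

/-- The edges at the vertex `v` in cyclic order. -/
def we (v : Fin 8) (i : Fin 6) : Fin 24 :=
  ⟨1138200351115263317041322122978647229763087177709689828991520127169478082 / 32 ^ (6 * v.val + i.val) % 32 % 24,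
    Nat.mod_lt _ (by decide)⟩

/-- The 2-faces at the vertex `v` in cyclic order. -/
def wf (v : Fin 8) (i : Fin 6) : Fin 8 :=
  ⟨17983745934755214205574553121276985267660813 / 8 ^ (6 * v.val + i.val) % 8, Nat.mod_lt _ (by decide)⟩

/-- The duality on vertices (giving 2-faces) is the identity; on edges it is this map. -/
def de (e : Fin 24) : Fin 24 := ⟨(4 * (e.val / 4) + (e.val + 1) % 4) % 24, Nat.mod_lt _ (by decide)⟩

/-- The inverse of `de`. -/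
def de' (e : Fin 24) : Fin 24 := ⟨(4 * (e.val / 4) + (e.val + 3) % 4) % 24, Nat.mod_lt _ (by decide)⟩

/-- The duality on 2-faces (giving vertices). -/
def df (f : Fin 8) : Fin 8 := ⟨(f.val ^^^ 1) % 8, Nat.mod_lt _ (by decide)⟩

/-- The words used to exclude polarities, one for each possible image of the base flag. -/
def words : List (List (Fin 3)) :=
  [[1, 0, 2, 1, 2], [0, 1, 0, 2, 1, 0, 1, 0, 1, 2], [1, 0, 2, 1, 0, 2], [1, 0, 2, 1, 0], [0, 2, 1, 0, 1, 0, 1, 2], [0, 2, 1, 0, 1, 0, 1],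
   [2, 1, 0, 1, 0, 1, 2], [2, 1, 0, 1, 0, 1], [1, 0, 1, 2, 1, 0, 1], [0, 2, 1, 0], [0, 2, 1, 2], [0, 2, 1],
   [1, 2, 1, 2], [1, 2, 1], [1, 2, 1, 0, 2], [1, 2, 1, 0], [0, 2, 1, 0, 1, 2], [0, 2, 1, 0, 1],
   [0, 2, 1, 0, 1, 0, 2], [0, 2, 1, 0, 1, 0], [0, 1, 0, 1, 2, 1], [0, 2, 1, 2, 1, 0], [0, 2, 1, 2, 1, 2], [0, 2, 1, 2, 1],
   [1, 0], [1, 0, 2], [0, 1, 2, 1, 2, 1, 0, 1, 2], [1, 2], [2, 1, 2, 1, 0, 2, 1], [0, 1, 2, 1, 0, 1],
   [0, 1, 2, 1, 0, 1, 0, 2], [0, 1, 2, 1, 0, 1, 0], [1, 0, 1], [1, 0, 1, 2], [1, 0, 1, 0], [1, 0, 1, 0, 2],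
   [2, 1, 2, 1, 0, 2], [2, 1, 2, 1, 0], [2, 1, 2, 1, 2], [2, 1, 2, 1], [0, 1, 0, 2, 1, 0, 2], [0, 1, 0, 2, 1, 0],
   [2, 1, 0, 2, 1], [0, 1, 0, 2, 1], [0, 1, 0, 1, 2], [0, 1, 0, 1], [0, 1, 0, 1, 0, 2], [0, 1, 0, 1, 0],
   [1, 2, 1, 2, 1, 0, 1], [0, 1, 0, 2, 1, 0, 1], [1, 0, 2, 1, 2, 1, 2], [1, 0, 2, 1, 2, 1], [0, 1, 0, 1, 0, 2, 1, 0], [1, 0, 1, 2, 1, 2, 1],
   [0, 1, 0, 1, 0, 2, 1], [0, 1, 0, 1, 0, 2, 1, 2], [0, 2, 1, 0, 2, 1, 2], [0, 2, 1, 0, 2, 1], [1, 0, 1, 2, 1, 2], [0, 2, 1, 0, 2, 1, 0],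
   [1, 2, 1, 2, 1, 0], [1, 2, 1, 2, 1, 0, 2], [1, 2, 1, 2, 1], [1, 2, 1, 2, 1, 2], [1, 0, 1, 0, 1], [1, 0, 1, 0, 1, 2],
   [0, 1, 0, 1, 0, 1], [0, 1, 0, 1, 0, 1, 2], [2, 1, 2, 1, 0, 1], [1, 0, 1, 0, 2, 1], [1, 0, 1, 0, 2, 1, 0, 2], [1, 0, 1, 0, 2, 1, 0],
   [2, 1, 0, 2], [0, 1, 0, 2, 1, 2, 1, 2], [2, 1, 2], [2, 1], [0, 1, 0], [0, 1, 0, 2],
   [0, 1], [1, 2, 1, 0, 1, 2, 1], [0, 1, 2, 1, 2, 1, 0, 1, 2, 1], [2], [0], [0, 1, 2, 1, 2, 1, 0, 1, 2, 1],
   [0, 1, 2, 1, 0], [0, 1, 2, 1, 0, 2], [0, 1, 2, 1], [0, 1, 2, 1, 2], [0, 2, 1, 0, 1, 0, 2, 1], [1, 0, 2, 1, 0, 1, 0],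
   [1, 0, 2, 1, 0, 1, 2], [1, 0, 2, 1, 0, 1], [2, 1, 0, 1, 2], [2, 1, 0, 1], [2, 1, 0, 1, 0, 2], [2, 1, 0, 1, 0]]

/-- The adjacent flag at rank `i`. -/
def r (i : Fin 3) (x : Fin 96) : Fin 96 :=
  match i with
  | 0 => r0 x
  | 1 => r1 x
  | 2 => r2 x

/-- Apply a word. -/
def app (w : List (Fin 3)) (x : Fin 96) : Fin 96 := w.foldl (fun y i => r i y) x

/-- Apply the dual word. -/
def app' (w : List (Fin 3)) (x : Fin 96) : Fin 96 := w.foldl (fun y i => r (2 - i) y) x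

/-- The word of index `y`. -/
def word (y : Fin 96) : List (Fin 3) := words.getD y.val []

theorem words_ok : ∀ y : Fin 96,
    (app (word y) 80 = 80 ∧ app' (word y) y ≠ y) ∨
    (app (word y) 80 = y ∧ app' (word y) y ≠ 80) := by
  decide +kernel

theorem r_ok : ∀ x : Fin 96, (E (r0 x) = E x ∧ F (r0 x) = F x ∧ V (r0 x) ≠ V x) ∧
    (V (r1 x) = V x ∧ F (r1 x) = F x ∧ E (r1 x) ≠ E x) ∧
    (V (r2 x) = V x ∧ E (r2 x) = E x ∧ F (r2 x) ≠ F x) := by
  decide +kernel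

theorem uniq : ∀ x y : Fin 96,
    (V x = V y → E x = E y → y = x ∨ y = r2 x) ∧ (V x = V y → F x = F y → y = x ∨ y = r1 x) ∧
    (E x = E y → F x = F y → y = x ∨ y = r0 x) := by
  decide +kernel

theorem ds_ok : ∀ x : Fin 96, x = 0 ∨ ds (r0 x) < ds x ∨ ds (r1 x) < ds x ∨ ds (r2 x) < ds x := by
  decide +kernel

theorem rr_ok : ∀ x : Fin 96, r0 (r0 x) = x ∧ r1 (r1 x) = x ∧ r2 (r2 x) = x := by
  decide +kernel

/-- Going round a vertex. -/
def rot (k : ℕ) (x : Fin 96) : Fin 96 := Nat.iterate (fun y => r1 (r2 y)) k x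

/-- Going round a 2-face. -/
def rot' (k : ℕ) (x : Fin 96) : Fin 96 := Nat.iterate (fun y => r1 (r0 y)) k x

theorem rot_ok : ∀ x y : Fin 96, V x = V y → ∃ k : Fin 6, y = rot k.val x ∨ y = r2 (rot k.val x) := by
  decide +kernel

theorem rot'_ok : ∀ x y : Fin 96, F x = F y →
    ∃ k : Fin 6, y = rot' k.val x ∨ y = r0 (rot' k.val x) := by
  decide +kernel

theorem edge_ok : ∀ x y : Fin 96, E x = E y → y = x ∨ y = r0 x ∨ y = r2 x ∨ y = r0 (r2 x) := by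
  decide +kernel

theorem ive_iff : ∀ v : Fin 8, ∀ e : Fin 24, ive v e = true ↔ ∃ x : Fin 96, V x = v ∧ E x = e := by
  decide +kernel

theorem ief_iff : ∀ e : Fin 24, ∀ f : Fin 8, ief e f = true ↔ ∃ x : Fin 96, E x = e ∧ F x = f := by
  decide +kernel

theorem ivf_iff : ∀ v : Fin 8, ∀ f : Fin 8, ivf v f = true ↔ ∃ x : Fin 96, V x = v ∧ F x = f := by
  decide +kernel

theorem trans_ok : ∀ v : Fin 8, ∀ e : Fin 24, ∀ f : Fin 8, ive v e = true → ief e f = true →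
    ∃ x : Fin 96, V x = v ∧ E x = e ∧ F x = f := by
  decide +kernel

theorem surj_ok : (∀ v : Fin 8, ∃ x : Fin 96, V x = v) ∧ (∀ e : Fin 24, ∃ x : Fin 96, E x = e) ∧
    (∀ f : Fin 8, ∃ x : Fin 96, F x = f) := by
  decide +kernel

theorem dia_v : ∀ x : Fin 96, ∀ v : Fin 8, ive v (E x) = true ↔ v = V x ∨ v = V (r0 x) := by
  decide +kernel

theorem dia_e : ∀ x : Fin 96, ∀ e : Fin 24,
    (ive (V x) e = true ∧ ief e (F x) = true) ↔ e = E x ∨ e = E (r1 x) := by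
  decide +kernel

theorem dia_f : ∀ x : Fin 96, ∀ f : Fin 8, ief (E x) f = true ↔ f = F x ∨ f = F (r2 x) := by
  decide +kernel

theorem face_poly : ∀ f : Fin 8, (∀ i j : Fin 6, fv f i = fv f j → i = j) ∧
    (∀ i j : Fin 6, fe f i = fe f j → i = j) ∧
    (∀ v : Fin 8, ivf v f = true ↔ ∃ i, fv f i = v) ∧
    (∀ e : Fin 24, ief e f = true ↔ ∃ i, fe f i = e) ∧
    (∀ i j : Fin 6, ive (fv f i) (fe f j) = true ↔ (i = j ∨ i.val = (j.val + 1) % 6)) := by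
  decide +kernel

theorem vert_poly : ∀ v : Fin 8, (∀ i j : Fin 6, we v i = we v j → i = j) ∧
    (∀ i j : Fin 6, wf v i = wf v j → i = j) ∧
    (∀ e : Fin 24, ive v e = true ↔ ∃ i, we v i = e) ∧
    (∀ f : Fin 8, ivf v f = true ↔ ∃ i, wf v i = f) ∧
    (∀ i j : Fin 6, ief (we v i) (wf v j) = true ↔ (i = j ∨ i.val = (j.val + 1) % 6)) := by
  decide +kernel

theorem dual_ok : (∀ e : Fin 24, de (de' e) = e ∧ de' (de e) = e) ∧ (∀ f : Fin 8, df (df f) = f) ∧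
    (∀ v : Fin 8, ∀ e : Fin 24, ive v e = ief (de e) v) ∧
    (∀ e : Fin 24, ∀ f : Fin 8, ief e f = ive (df f) (de e)) ∧
    (∀ v : Fin 8, ∀ f : Fin 8, ivf v f = ivf (df f) v) := by
  decide +kernel

end Pool.Agent.H315_Pol
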